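import Pool.Agent.H26.SL.DrzT
import Pool.Agent.H26.SL.DrzCompletionIff

/-!
# MP_632fda_an: exactly which pairs `(A, B)` have a Drazin invertible completion `M_C`

Definitions: `Pool/Agent/H26/SL/Drz.lean`.
-/

set_option autoImplicit false

namespace Pool.Agent.Results.MP_632fda_an.CompletionIff

open Pool.Agent.H26.SL.Drz Pool.Agent.H26.SL.DrzT

/-- **Characterization of the pairs with a Drazin invertible completion.** -/
theorem result (H K : Type*)
    [NormedAddCommGroup H] [InnerProductSpace ℂ H] [CompleteSpace H]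
    [TopologicalSpace.SeparableSpace H]
    [NormedAddCommGroup K] [InnerProductSpace ℂ K] [CompleteSpace K]
    [TopologicalSpace.SeparableSpace K]
    (A : H →L[ℂ] H) (B : K →L[ℂ] K) :
    ((∃ C : K →L[ℂ] H, IsDrazin (blockOp A C B)) ↔
      dsc (ContinuousLinearMap.adjoint A) < ⊤ ∧ dsc B < ⊤ ∧ CondIII A B) ∧
    (IsLeftDrazin A → dsc (ContinuousLinearMap.adjoint A) < ⊤) := by
  obtain ⟨h1, h2⟩ := Pool.Agent.H26.SL.DrzCompletionIff.main H K A B
  simp only [isDrazin_block, dsc_eq, condIII_iff, isLeft_iff]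
  exact ⟨h1, h2⟩

end Pool.Agent.Results.MP_632fda_an.CompletionIff
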