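import Pool.Agent.H26.SL.DrzT
import Pool.Agent.H26.SL.DrzNoCompletion

/-!
# MP_632fda_an: without (E), left Drazin invertibility of `A` cannot be weakened to `asc A < ∞`

Definitions: `Pool/Agent/H26/SL/Drz.lean`.
-/

set_option autoImplicit false

namespace Pool.Agent.Results.MP_632fda_an.NoCompletion

open Pool.Agent.H26.SL.Drz Pool.Agent.H26.SL.DrzT

theorem result (H K : Type*)
    [NormedAddCommGroup H] [InnerProductSpace ℂ H] [CompleteSpace H]
    [TopologicalSpace.SeparableSpace H] (hH : ¬ FiniteDimensional ℂ H)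
    [NormedAddCommGroup K] [InnerProductSpace ℂ K] [CompleteSpace K]
    [TopologicalSpace.SeparableSpace K] (hK : ¬ FiniteDimensional ℂ K) :
    ∃ (A : H →L[ℂ] H) (B : K →L[ℂ] K),
      asc A < ⊤ ∧ IsRightDrazin B ∧ CondIII A B ∧
      ∀ C : K →L[ℂ] H, ¬ IsDrazin (blockOp A C B) := by
  obtain ⟨A, B, h1, h2, h3, h4⟩ := Pool.Agent.H26.SL.DrzNoCompletion.main H K hH hK
  refine ⟨A, B, by rw [asc_eq]; exact h1, (isRight_iff B).2 h2, (condIII_iff A B).2 h3,
    fun C h => h4 C ((isDrazin_block A C B).1 h)⟩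

end Pool.Agent.Results.MP_632fda_an.NoCompletion
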