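import Pool.Agent.H26.SL.DrzT
import Pool.Agent.H26.SL.DrzQ1False

/-!
# MP_632fda_an, Q1: a negative answer

For all infinite dimensional separable complex Hilbert spaces `H`, `K` there are `A`, `B` that
satisfy every hypothesis of Q1, for which (E) holds and admissible `C` exist for every
`p ≥ max{1, asc A, dsc B}`, while `M_C` is not Drazin invertible for any admissible `C`.

Definitions: `Pool/Agent/H26/SL/Drz.lean`.
-/

set_option autoImplicit false

namespace Pool.Agent.Results.MP_632fda_an.Q1False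

open Pool.Agent.H26.SL.Drz Pool.Agent.H26.SL.DrzT

theorem result (H K : Type*)
    [NormedAddCommGroup H] [InnerProductSpace ℂ H] [CompleteSpace H]
    [TopologicalSpace.SeparableSpace H] (hH : ¬ FiniteDimensional ℂ H)
    [NormedAddCommGroup K] [InnerProductSpace ℂ K] [CompleteSpace K]
    [TopologicalSpace.SeparableSpace K] (hK : ¬ FiniteDimensional ℂ K) :
    ∃ (A : H →L[ℂ] H) (B : K →L[ℂ] K),
      IsLeftDrazin A ∧ dsc B < ⊤ ∧ CondIII A B ∧
      ∀ p : ℕ, 1 ≤ p → asc A ≤ p → dsc B ≤ p →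
        CondE A B p ∧ (∃ C : K →L[ℂ] H, IsAdmissible A B p C) ∧
        ∀ C : K →L[ℂ] H, IsAdmissible A B p C → ¬ IsDrazin (blockOp A C B) := by
  obtain ⟨A, B, h1, h2, h3, h4⟩ := Pool.Agent.H26.SL.DrzQ1False.main H K hH hK
  refine ⟨A, B, (isLeft_iff A).2 h1, by rw [dsc_eq]; exact h2, (condIII_iff A B).2 h3, ?_⟩
  intro p hp hpA hpB
  rw [asc_eq] at hpA
  rw [dsc_eq] at hpB
  obtain ⟨hE, ⟨C, hC⟩, hall⟩ := h4 p hp hpA hpB
  refine ⟨(condE_iff A B p).2 hE, ⟨C, (isAdmissible_iff A B p C).2 hC⟩, fun C' hC' h => ?_⟩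
  exact hall C' ((isAdmissible_iff A B p C').1 hC') ((isDrazin_block A C' B).1 h)

end Pool.Agent.Results.MP_632fda_an.Q1False
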