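import Pool.Agent.H26.SL.DrzT
import Pool.Agent.H26.SL.DrzQ2True

/-!
# MP_632fda_an, Q2: a positive answer

Definitions: `Pool/Agent/H26/SL/Drz.lean`.
-/

set_option autoImplicit false

namespace Pool.Agent.Results.MP_632fda_an.Q2True

open Pool.Agent.H26.SL.Drz Pool.Agent.H26.SL.DrzT

theorem result (H K : Type*)
    [NormedAddCommGroup H] [InnerProductSpace ℂ H] [CompleteSpace H]
    [NormedAddCommGroup K] [InnerProductSpace ℂ K] [CompleteSpace K]
    (A : H →L[ℂ] H) (B : K →L[ℂ] K) (hB : IsRightDrazin B)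
    (p : ℕ) (hp : 1 ≤ p) (hpA : asc A ≤ p) (hpB : dsc B ≤ p) (hE : CondE A B p)
    (C : K →L[ℂ] H) (hC : IsAdmissible A B p C) :
    IsDrazin (blockOp A C B) := by
  rw [asc_eq] at hpA
  rw [dsc_eq] at hpB
  exact (isDrazin_block A C B).2 (Pool.Agent.H26.SL.DrzQ2True.main H K A B ((isRight_iff B).1 hB) p hp
    hpA hpB ((condE_iff A B p).1 hE) C ((isAdmissible_iff A B p C).1 hC))

end Pool.Agent.Results.MP_632fda_an.Q2True
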